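import Pool.Agent.H73.AW.Stmt
import Pool.Agent.H27.AD.Xdiag

/-! Annealing Hamiltonians are covered by the window `LowE`. -/

namespace Pool.Agent.H73.AW

open Finset Matrix Pool.Agent.H73.QA Pool.Agent.H73.AD

variable {n : ℕ} {Y : Type} [Fintype Y] [DecidableEq Y]

section gen

variable {X : Type} [Fintype X] [DecidableEq X]

/-- expansion in eigenvectors -/
theorem nsq_eig {A : Matrix X X ℂ} (hA : A.IsHermitian) (v : X → ℂ) :
    nsq v = ∑ i, ‖star (hA.eigenvectorBasis i : X → ℂ) ⬝ᵥ v‖ ^ 2 := by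
  have h1 := hA.eigenvectorBasis.sum_sq_norm_inner_right (WithLp.toLp 2 v)
  have h2 : ‖(WithLp.toLp 2 v : EuclideanSpace ℂ X)‖ ^ 2 = nsq v := by
    rw [EuclideanSpace.norm_sq_eq]
    rfl
  rw [← h2, ← h1]
  refine sum_congr rfl fun i _ => ?_
  rw [EuclideanSpace.inner_eq_star_dotProduct, dotProduct_comm]

theorem star_eig_mulVec {A : Matrix X X ℂ} (hA : A.IsHermitian) (v : X → ℂ) (i : X) :
    star (hA.eigenvectorBasis i : X → ℂ) ⬝ᵥ A *ᵥ v =
      (hA.eigenvalues i : ℂ) * (star (hA.eigenvectorBasis i : X → ℂ) ⬝ᵥ v) := by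
  have h1 : star (hA.eigenvectorBasis i : X → ℂ) ⬝ᵥ A *ᵥ v =
      star (A *ᵥ (hA.eigenvectorBasis i : X → ℂ)) ⬝ᵥ v := by
    rw [star_mulVec, hA.eq, dotProduct_mulVec]
  rw [h1, hA.mulVec_eigenvectorBasis i, star_smul, smul_dotProduct, star_trivial,
    Complex.real_smul]

theorem energy_eig {A : Matrix X X ℂ} (hA : A.IsHermitian) (v : X → ℂ) :
    (star v ⬝ᵥ A *ᵥ v).re =
      ∑ i, hA.eigenvalues i * ‖star (hA.eigenvectorBasis i : X → ℂ) ⬝ᵥ v‖ ^ 2 := by
  have h1 := hA.eigenvectorBasis.sum_inner_mul_inner (WithLp.toLp 2 v) (WithLp.toLp 2 (A *ᵥ v))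
  have h2 : star v ⬝ᵥ A *ᵥ v = ∑ i, star (star (hA.eigenvectorBasis i : X → ℂ) ⬝ᵥ v) *
      (star (hA.eigenvectorBasis i : X → ℂ) ⬝ᵥ A *ᵥ v) := by
    have h3 : star v ⬝ᵥ A *ᵥ v =
        inner ℂ (WithLp.toLp 2 v : EuclideanSpace ℂ X) (WithLp.toLp 2 (A *ᵥ v)) := by
      rw [EuclideanSpace.inner_eq_star_dotProduct, dotProduct_comm]
    rw [h3, ← h1]
    refine sum_congr rfl fun i _ => ?_
    rw [EuclideanSpace.inner_eq_star_dotProduct, EuclideanSpace.inner_eq_star_dotProduct,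
      dotProduct_comm (star (hA.eigenvectorBasis i : X → ℂ)) (A *ᵥ v), star_dotProduct, star_star,
      dotProduct_comm (hA.eigenvectorBasis i : X → ℂ)]
  rw [h2, Complex.re_sum]
  refine sum_congr rfl fun i _ => ?_
  rw [star_eig_mulVec, mul_left_comm, Complex.star_def, Complex.conj_mul', ← Complex.ofReal_pow,
    ← Complex.ofReal_mul, Complex.ofReal_re]

/-- the complement of the low eigenvectors -/
theorem energy_high {A : Matrix X X ℂ} (hA : A.IsHermitian) {κ : ℝ} (v : X → ℂ)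
    (h : ∀ i, hA.eigenvalues i < κ → star (hA.eigenvectorBasis i : X → ℂ) ⬝ᵥ v = 0) :
    κ * nsq v ≤ (star v ⬝ᵥ A *ᵥ v).re := by
  rw [energy_eig hA, nsq_eig hA, mul_sum]
  refine sum_le_sum fun i _ => ?_
  by_cases hi : hA.eigenvalues i < κ
  · rw [h i hi, norm_zero]
    norm_num
  · exact mul_le_mul_of_nonneg_right (not_lt.1 hi) (sq_nonneg _)

/-- transfer of the number of low eigenvalues -/
theorem count_transfer {A B : Matrix X X ℂ} (hA : A.IsHermitian) (hB : B.IsHermitian) {κ ρ : ℝ}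
    (h : ∀ v : X → ℂ, κ * nsq v ≤ (star v ⬝ᵥ A *ᵥ v).re → ρ * nsq v ≤ (star v ⬝ᵥ B *ᵥ v).re) :
    (univ.filter fun i => hB.eigenvalues i < ρ).card ≤
      (univ.filter fun i => hA.eigenvalues i < κ).card := by
  have h1 := count_low hB (κ := ρ) (J := {i : X // i ∈ univ.filter fun i => hA.eigenvalues i < κ})
    (fun i => star (hA.eigenvectorBasis i.1 : X → ℂ)) (fun v hv => h v (energy_high hA v
      fun i hi => hv ⟨i, mem_filter.2 ⟨mem_univ _, hi⟩⟩))
  rwa [Fintype.card_coe] at h1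

omit [Fintype X] in
theorem herm_comb {A : Matrix X X ℂ} (hA : A.IsHermitian) (b : ℝ) :
    ((b : ℂ) • A + ((1 - b : ℝ) : ℂ) • (1 : Matrix X X ℂ)).IsHermitian := by
  unfold Matrix.IsHermitian
  rw [conjTranspose_add, conjTranspose_smul, conjTranspose_smul, conjTranspose_one, hA.eq,
    Complex.star_def, Complex.conj_ofReal, Complex.conj_ofReal]

theorem energy_comb (A : Matrix X X ℂ) (b : ℝ) (v : X → ℂ) :
    (star v ⬝ᵥ ((b : ℂ) • A + ((1 - b : ℝ) : ℂ) • (1 : Matrix X X ℂ)) *ᵥ v).re =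
      b * (star v ⬝ᵥ A *ᵥ v).re + (1 - b) * nsq v := by
  rw [add_mulVec, smul_mulVec, smul_mulVec, one_mulVec, dotProduct_add, dotProduct_smul,
    dotProduct_smul, star_dot_self, smul_eq_mul, smul_eq_mul, Complex.add_re,
    Complex.re_ofReal_mul, Complex.re_ofReal_mul, Complex.ofReal_re]

end gen

/-- Ground states of annealing Hamiltonians `b A + (1 - b) V` are low-lying. -/
theorem ann_low {α κ b E : ℝ} {A V : Op n Y} (hpsd : ∀ v : Cube n × Y → ℂ,
    0 ≤ (star v ⬝ᵥ A *ᵥ v).re) (hker : ∃ v : Cube n × Y → ℂ, v ≠ 0 ∧ A *ᵥ v = 0)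
    (hfew : Few α κ 0 A) (hb0 : 0 ≤ b)
    (hE : ∀ v : Cube n × Y → ℂ,
      E * nsq v ≤ (star v ⬝ᵥ ((b : ℂ) • A + ((1 - b : ℝ) : ℂ) • V) *ᵥ v).re)
    (hEb : E ≤ b) (hκ0 : 0 < κ) (hκ1 : κ ≤ 1) :
    LowE α (κ / 10) ((b : ℂ) • A + ((1 - b : ℝ) : ℂ) • V)
      ((b : ℂ) • A + ((1 - b : ℝ) : ℂ) • (1 : Op n Y)) E := by
  obtain ⟨hA, hc⟩ := hfew
  rw [zero_add] at hc
  have hB := herm_comb hA b
  by_cases hb : b < 1 / 10
  · left
    refine ⟨hB, ?_⟩
    have h1 : (univ.filter fun i => hB.eigenvalues i < E + κ / 10) = ∅ := by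
      refine filter_false_of_mem fun i _ => ?_
      rw [not_lt]
      have h2 : hB.eigenvalues i * nsq (hB.eigenvectorBasis i : Cube n × Y → ℂ) =
          (star (hB.eigenvectorBasis i : Cube n × Y → ℂ) ⬝ᵥ
            ((b : ℂ) • A + ((1 - b : ℝ) : ℂ) • (1 : Op n Y)) *ᵥ
              (hB.eigenvectorBasis i : Cube n × Y → ℂ)).re := by
        rw [hB.mulVec_eigenvectorBasis i, dotProduct_smul]
        have h3 := star_dot_self (hB.eigenvectorBasis i : Cube n × Y → ℂ)
        rw [h3, Complex.real_smul, Complex.re_ofReal_mul, Complex.ofReal_re]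
      have h4 : nsq (hB.eigenvectorBasis i : Cube n × Y → ℂ) = 1 := by
        have h5 := hB.eigenvectorBasis.orthonormal.1 i
        have h6 : ‖hB.eigenvectorBasis i‖ ^ 2 = nsq (hB.eigenvectorBasis i : Cube n × Y → ℂ) := by
          rw [EuclideanSpace.norm_sq_eq]
          rfl
        rw [← h6, h5, one_pow]
      rw [energy_comb, h4, mul_one, mul_one] at h2
      have h7 := mul_nonneg hb0 (hpsd (hB.eigenvectorBasis i : Cube n × Y → ℂ))
      linarith
    rw [h1, card_empty, Nat.cast_zero]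
    positivity
  · right
    refine ⟨hE, 1 - b, ?_⟩
    obtain ⟨v, hv0, hv⟩ := hker
    refine ⟨v, hv0, ?_, hB, ?_⟩
    · rw [add_mulVec, smul_mulVec, smul_mulVec, one_mulVec, hv, smul_zero, zero_add]
    · refine le_trans ?_ hc
      have h1 := count_transfer hA hB (κ := κ) (ρ := 1 - b + κ / 10) (fun w hw => by
        rw [energy_comb]
        have h2 : 0 ≤ nsq w := sum_nonneg fun _ _ => sq_nonneg _
        have h3 := mul_le_mul_of_nonneg_left hw hb0
        have h4 : κ / 10 * nsq w ≤ b * (κ * nsq w) := by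
          have h5 : 1 / 10 * (κ * nsq w) ≤ b * (κ * nsq w) :=
            mul_le_mul_of_nonneg_right (not_lt.1 hb) (mul_nonneg hκ0.le h2)
          linarith
        linarith)
      exact_mod_cast h1

/-- Drivers which are diagonal in the Hadamard basis have few low energies, are positive
semidefinite and have a nonzero kernel. -/
theorem few_xdiag {α κ : ℝ} {φ : Finset (Fin n) → ℝ} (h0 : ∀ S, 0 ≤ φ S)
    {S₀ : Finset (Fin n)} (he : φ S₀ = 0)
    (hl : ((univ.filter fun S => φ S < κ).card : ℝ) ≤ 2 ^ (α * n)) {A : Op n Unit}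
    (hA : ∀ x y, A x y = ((1 / 2 ^ n * ∑ S, φ S * (-1) ^ (S ∩ diff x.1 y.1).card : ℝ) : ℂ)) :
    (∀ v : Cube n × Unit → ℂ, 0 ≤ (star v ⬝ᵥ A *ᵥ v).re) ∧
      (∃ v : Cube n × Unit → ℂ, v ≠ 0 ∧ A *ᵥ v = 0) ∧ Few α κ 0 A := by
  have h1 : A = xdiag φ := by
    ext x y
    rw [hA]
    rfl
  have h2 : (0 : ℝ) < 2 ^ n := by positivity
  subst h1
  refine ⟨fun v => ?_, ⟨hchi S₀, fun h3 => ?_, ?_⟩, xdiag_herm φ, ?_⟩
  · refine le_of_mul_le_mul_left ?_ h2
    rw [mul_zero, henergy (xdiag_hchi φ)]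
    exact sum_nonneg fun T _ => mul_nonneg (h0 T) (sq_nonneg _)
  · have := hchi_norm S₀ (fun _ => false, ())
    rw [h3, Pi.zero_apply, norm_zero] at this
    exact zero_ne_one this
  · rw [xdiag_hchi, he, Complex.ofReal_zero, zero_smul]
  · rw [zero_add]
    refine le_trans ?_ hl
    have h3 := count_low (xdiag_herm φ) (κ := κ)
      (J := {T : Finset (Fin n) // T ∈ univ.filter fun T => φ T < κ})
      (fun T => hchi T.1) (fun v hv => by
        refine le_of_mul_le_mul_left ?_ h2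
        rw [henergy (xdiag_hchi φ), mul_left_comm, hparseval, mul_sum]
        refine sum_le_sum fun T _ => ?_
        by_cases hT : φ T < κ
        · have h4 := hv ⟨T, mem_filter.2 ⟨mem_univ _, hT⟩⟩
          simp only at h4
          rw [h4, norm_zero]
          norm_num
        · exact mul_le_mul_of_nonneg_right (not_lt.1 hT) (sq_nonneg _))
    rw [Fintype.card_coe] at h3
    exact_mod_cast h3

end Pool.Agent.H73.AW
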